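import Mathlib
import Pool.Agent.H9.Ham4

set_option autoImplicit false

namespace Pool.Agent.Results.MP_9d0e7f_co.Counter

open SimpleGraph

/-- The number of Hamilton cycles: subgraphs on all `n` vertices that are `n`-cycles. -/
noncomputable def hamCount {n : ℕ} (G : SimpleGraph (Fin n)) : ℕ :=
  {H : SimpleGraph (Fin n) | H ≤ G ∧ Nonempty (H ≃g cycleGraph n)}.ncard

/-- The multiplicity of the isomorphism class of `F` in the `t`-vertex deck of `G`. -/
noncomputable def deckCount {n : ℕ} (G : SimpleGraph (Fin n)) (t : ℕ) (F : SimpleGraph (Fin t)) :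
    ℕ :=
  {S : Finset (Fin n) | S.card = t ∧ Nonempty (G.induce (S : Set (Fin n)) ≃g F)}.ncard

/-- Equality of the `t`-vertex decks: every isomorphism class has the same multiplicity. -/
def SameDeck {n : ℕ} (G G' : SimpleGraph (Fin n)) (t : ℕ) : Prop :=
  ∀ F : SimpleGraph (Fin t), deckCount G t F = deckCount G' t F

theorem strong (c : ℝ) (hc0 : 0 ≤ c) (hc : c < 1) (n₀ : ℕ) : ∃ n, n₀ ≤ n ∧ 3 ≤ n ∧
    ∃ G G' : SimpleGraph (Fin n), SameDeck G G' ⌊c * n⌋₊ ∧ 0 < hamCount G ∧ hamCount G' = 0 := by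
  obtain ⟨k, hk⟩ := exists_nat_gt (2 / (1 - c))
  have hk1 : 2 < (k : ℝ) * (1 - c) := by rwa [div_lt_iff₀ (by linarith)] at hk
  have hk2 : 1 ≤ k := by
    rcases Nat.eq_zero_or_pos k with rfl | h
    · norm_num at hk1
    · exact h
  set D := 9 * (Nat.card (H9.Ham.A k) * (k + 1)) + 3 with hD
  set m := D + n₀ + 2 with hm
  have := H9.Ham.finV (n := k) (m := m)
  obtain ⟨G₁, G₂, ⟨H, hH, ⟨i⟩⟩, h2, h3⟩ := H9.Ham.main (n := k) (m := m) hk2 (by omega)
  have c1 := H9.Ham.card_le (n := k) (m := m)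
  have c2 := H9.Ham.le_card (n := k) (m := m)
  set n := Nat.card (H9.Ham.V k m) with hn
  let e : Fin n ≃ H9.Ham.V k m := (Finite.equivFin _).symm
  refine ⟨n, by omega, by omega, G₁.comap e, G₂.comap e, ?_, ?_, ?_⟩
  · intro F
    have ht : ⌊c * n⌋₊ < k * (m + 1) := by
      rw [Nat.floor_lt (by positivity)]
      have d1 : (n : ℝ) ≤ D + (k + 1) * (m + 1) := by exact_mod_cast c1
      have d2 : (D : ℝ) < m + 1 := by exact_mod_cast (by omega : D < m + 1)
      have d3 : (0 : ℝ) ≤ D := by positivity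
      have d4 : (0 : ℝ) < m + 1 := by positivity
      have d5 : c * n ≤ c * (D + (k + 1) * (m + 1)) := mul_le_mul_of_nonneg_left d1 hc0
      have d6 : c * D ≤ D := by nlinarith
      have d7 : c * (k + 1) * (m + 1) ≤ (k - 1) * (m + 1) :=
        mul_le_mul_of_nonneg_right (by nlinarith) d4.le
      push_cast
      nlinarith
    exact (H9.Ham.cnt_comap G₁ e _ F).trans ((h3 _ ht F).trans (H9.Ham.cnt_comap G₂ e _ F).symm)
  · rw [hamCount, Set.ncard_pos]
    exact ⟨H.comap e, fun x y h => hH h, ⟨(Iso.comap e H).trans i⟩⟩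
  · rw [hamCount, Set.ncard_eq_zero, Set.eq_empty_iff_forall_notMem]
    rintro H' ⟨hle, ⟨j⟩⟩
    refine h2 (H'.comap e.symm) (H9.Ham.hc_of_iso (n := n) (by omega) ?_
      ((Iso.comap e.symm H').trans j))
    intro x y h
    simpa using hle h

theorem result :
    (∀ c : ℝ, 0 ≤ c → c < 1 → ∀ n₀ : ℕ, ∃ n, n₀ ≤ n ∧ 3 ≤ n ∧ ∃ G G' : SimpleGraph (Fin n),
      SameDeck G G' ⌊c * n⌋₊ ∧ 0 < hamCount G ∧ hamCount G' = 0) ∧
    ¬ ∃ (c : ℝ) (n₀ : ℕ), 0 ≤ c ∧ c < 1 ∧ ∀ n, n₀ ≤ n → ∀ G G' : SimpleGraph (Fin n),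
      SameDeck G G' ⌊c * n⌋₊ → hamCount G = hamCount G' := by
  refine ⟨strong, ?_⟩
  rintro ⟨c, n₀, h0, h1, h⟩
  obtain ⟨n, hn, -, G, G', h2, h3, h4⟩ := strong c h0 h1 n₀
  have := h n hn G G' h2
  omega

end Pool.Agent.Results.MP_9d0e7f_co.Counter
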